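import Pool.Agent.ZRT.StmtsB

/-!
# ZRT, row MNZ: no very short geodesics from a point to itself or to another given point
-/

noncomputable section

set_option autoImplicit false

open scoped ContDiff Topology RealInnerProductSpace
open Set Filter

namespace Pool.Agent.ZRT.H67

open Pool.Agent.RF Pool.Agent.MVS Pool.Agent.ZRT

theorem nm_lower {G : E5 → Bil E5} (hG : IsCyl G) {a : E5} (ha : a ∈ Om (Fin 5)) :
    ∃ c : ℝ, 0 < c ∧ ∀ v, c * ‖v‖ ≤ nm G a v := by
  have hcont : Continuous fun v : E5 => G a v v := (G a).continuous.clm_apply continuous_id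
  have hne : (Metric.sphere (0 : E5) 1).Nonempty := by
    refine ⟨eb 0, ?_⟩
    rw [mem_sphere_zero_iff_norm]
    simp [eb]
  obtain ⟨v0, hv0, hmin⟩ := (isCompact_sphere (0 : E5) 1).exists_isMinOn hne hcont.continuousOn
  have hv1 : ‖v0‖ = 1 := by rwa [mem_sphere_zero_iff_norm] at hv0
  have hv2 : v0 ≠ 0 := by
    intro h
    rw [h, norm_zero] at hv1
    exact zero_ne_one hv1
  have hm : 0 < G a v0 v0 := hG.metric.pos a ha v0 hv2
  refine ⟨Real.sqrt (G a v0 v0), Real.sqrt_pos.mpr hm, fun v => ?_⟩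
  by_cases hv : v = 0
  · rw [hv, norm_zero, mul_zero]
    exact Real.sqrt_nonneg _
  · have hvn : 0 < ‖v‖ := norm_pos_iff.mpr hv
    have hu : ‖v‖⁻¹ • v ∈ Metric.sphere (0 : E5) 1 := by
      rw [mem_sphere_zero_iff_norm, norm_smul, norm_inv, norm_norm, inv_mul_cancel₀ hvn.ne']
    have h1 : G a v0 v0 ≤ G a (‖v‖⁻¹ • v) (‖v‖⁻¹ • v) := hmin hu
    rw [map_smul, map_smul, ContinuousLinearMap.smul_apply, smul_eq_mul, smul_eq_mul] at h1
    have h2 : G a v0 v0 * ‖v‖ ^ 2 ≤ G a v v := by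
      have h3 := mul_le_mul_of_nonneg_right h1 (sq_nonneg ‖v‖)
      have h4 : ‖v‖⁻¹ * (‖v‖⁻¹ * G a v v) * ‖v‖ ^ 2 = G a v v := by
        field_simp
      rwa [h4] at h3
    unfold nm
    rw [← Real.sqrt_sq hvn.le, ← Real.sqrt_mul hm.le]
    exact Real.sqrt_le_sqrt h2

theorem mnz (hXb1 : Xb1Statement) : MnzStatement := by
  intro G ex hG hex a ha b hab
  obtain ⟨hs, hd, -⟩ := hXb1 G ex hG hex a ha
  obtain ⟨c, hc, hlow⟩ := nm_lower hG ha
  have h0 : ex (a, 0) = a := hex.zero a ha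
  have hdiff : DifferentiableAt ℝ (fun u : E5 => ex (a, u)) 0 :=
    (hs.differentiable (by simp)).differentiableAt
  have hf : fderiv ℝ (fun u : E5 => ex (a, u)) 0 = ContinuousLinearMap.id ℝ E5 := by
    ext1 w
    exact hd w
  have hfd : HasFDerivAt (fun u : E5 => ex (a, u)) (ContinuousLinearMap.id ℝ E5) 0 := by
    rw [← hf]
    exact hdiff.hasFDerivAt
  have hlo := (hasFDerivAt_iff_isLittleO_nhds_zero.mp hfd).def (by norm_num : (0 : ℝ) < 1 / 2)
  have hne : ∀ᶠ v in 𝓝 (0 : E5), ex (a, v) ≠ b := by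
    have hc0 : Tendsto (fun u : E5 => ex (a, u)) (𝓝 0) (𝓝 (ex (a, 0))) :=
      hs.continuous.tendsto 0
    rw [h0] at hc0
    exact hc0.eventually_ne hab
  obtain ⟨δ, hδ, hball⟩ := Metric.eventually_nhds_iff.mp (hlo.and hne)
  refine ⟨c * δ, mul_pos hc hδ, fun v hv1 hv2 => ?_⟩
  have hvδ : ‖v‖ < δ := lt_of_mul_lt_mul_left ((hlow v).trans_lt hv2) hc.le
  have hv0 : v ≠ 0 := by
    intro h
    rw [h] at hv1
    unfold nm at hv1
    rw [map_zero, Real.sqrt_zero] at hv1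
    exact lt_irrefl _ hv1
  obtain ⟨h1, h2⟩ := hball (y := v) (by rwa [dist_zero_right])
  refine ⟨fun h => ?_, h2⟩
  rw [zero_add, h, h0, ContinuousLinearMap.id_apply, sub_self, zero_sub, norm_neg] at h1
  have hvn : 0 < ‖v‖ := norm_pos_iff.mpr hv0
  linarith

end Pool.Agent.ZRT.H67
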